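import Pool.Agent.Helper20.MB.DefsG
import Pool.Agent.Helper20.M8.ExactD

/-!
# MB-8c : the Lie derivatives along the spray in normal gauge
-/

open Filter Metric Module Set
open scoped Topology ContDiff RealInnerProductSpace Manifold

set_option maxSynthPendingDepth 3

namespace Pool.Agent.Helper78.MB
open Pool.Agent.Helper20.PC Pool.Agent.Helper20.HP Pool.Agent.Helper20.M8 Pool.Agent.Helper20.MB

section
variable {V Y : Type*} [NormedAddCommGroup V] [NormedSpace ℝ V]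
  [NormedAddCommGroup Y] [NormedSpace ℝ Y] {D : BD V Y} {x : V} {y : Y}

lemma lie_eq_deriv {E : Type*} [NormedAddCommGroup E] [NormedSpace ℝ E] {f : E → ℝ} {w s : E}
    (hf : DifferentiableAt ℝ f s) {l : ℝ} (h : HasDerivAt (fun t : ℝ => f (s + t • w)) l 0) :
    fderiv ℝ f s w = l := by
  rw [← hf.lineDeriv_eq_fderiv]
  exact h.deriv

lemma lin {E : Type*} [NormedAddCommGroup E] [NormedSpace ℝ E] (s w : E) :
    HasDerivAt (fun t : ℝ => s + t • w) w 0 := by
  simpa using ((hasDerivAt_id (0:ℝ)).smul_const w).const_add s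

/-- a function along a line -/
lemma line {E F : Type*} [NormedAddCommGroup E] [NormedSpace ℝ E] [NormedAddCommGroup F] [NormedSpace ℝ F]
    {f : E → F} {s : E} (hf : DifferentiableAt ℝ f s) (w : E) :
    HasDerivAt (fun t : ℝ => f (s + t • w)) (fderiv ℝ f s w) 0 := by
  have h2 : HasFDerivAt f (fderiv ℝ f s) (s + (0:ℝ) • w) := by simpa using hf.hasFDerivAt
  exact h2.comp_hasDerivAt (0:ℝ) (lin s w)

lemma cfst {E₁ E₂ G : Type*} [NormedAddCommGroup E₁] [NormedSpace ℝ E₁] [NormedAddCommGroup E₂]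
    [NormedSpace ℝ E₂] [NormedAddCommGroup G] [NormedSpace ℝ G] {f : E₁ → G} {s : E₁ × E₂}
    {n : WithTop ℕ∞} (hf : ContDiffAt ℝ n f s.1) :
    ContDiffAt ℝ n (fun s : E₁ × E₂ => f s.1) s :=
  hf.comp s contDiffAt_fst

lemma dfst {E₁ E₂ G : Type*} [NormedAddCommGroup E₁] [NormedSpace ℝ E₁] [NormedAddCommGroup E₂]
    [NormedSpace ℝ E₂] [NormedAddCommGroup G] [NormedSpace ℝ G] {f : E₁ → G} {s : E₁ × E₂}
    (hf : DifferentiableAt ℝ f s.1) : DifferentiableAt ℝ (fun s : E₁ × E₂ => f s.1) s :=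
  hf.comp s differentiableAt_fst

/-- `S` as a function on the states is of class `C²`. -/
lemma contDiffAt_SS {s : St V Y} (hS : ContDiffAt ℝ 2 D.S s.1) : ContDiffAt ℝ 2 D.SS s := by
  have h0 : ContDiffAt ℝ 2 (fun s : St V Y => D.S s.1) s := cfst hS
  have h1 : ContDiffAt ℝ 2 (fun s : St V Y => s.2.2.2.1) s := by fun_prop
  have h2 : ContDiffAt ℝ 2 (fun s : St V Y => s.2.2.2.2.1) s := by fun_prop
  have h3 : ContDiffAt ℝ 2 (fun s : St V Y => s.2.2.2.2.2.1) s := by fun_prop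
  have h4 : ContDiffAt ℝ 2 (fun s : St V Y => s.2.2.2.2.2.2) s := by fun_prop
  exact (((h0.clm_apply h1).clm_apply h2).clm_apply h3).clm_apply h4

/-- `S` with fixed vectors. -/
lemma contDiffAt_S4 {s : St V Y} (hS : ContDiffAt ℝ 2 D.SS s) :
    ContDiffAt ℝ 2 (fun x' => D.S x' s.2.2.2.1 s.2.2.2.2.1 s.2.2.2.2.2.1 s.2.2.2.2.2.2) s.1 := by
  have h1 : ContDiffAt ℝ 2 (fun x' : V => ((x', s.2) : St V Y)) s.1 := by fun_prop
  exact hS.comp s.1 h1

/-- the derivative in the directions of the base and of the first two vectors -/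
lemma fderiv_SS_base {s : St V Y} (hS : ContDiffAt ℝ 2 D.SS s) (w : St V Y)
    (h1 : w.2.2.2.1 = 0) (h2 : w.2.2.2.2.1 = 0) (h3 : w.2.2.2.2.2.1 = 0) (h4 : w.2.2.2.2.2.2 = 0) :
    fderiv ℝ D.SS s w = dS4 D.S s.1 w.1 s.2.2.2.1 s.2.2.2.2.1 s.2.2.2.2.2.1 s.2.2.2.2.2.2 := by
  refine lie_eq_deriv (hS.differentiableAt (by norm_num)) ?_
  have := line ((contDiffAt_S4 hS).differentiableAt (by norm_num)) w.1
  refine this.congr_of_eventuallyEq (Eventually.of_forall fun t => ?_)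
  simp [BD.SS, h1, h2, h3, h4]

/-- the derivative of `S` on the states does not see the second and third component -/
lemma fderiv_SS_proj {s : St V Y} (hS : ContDiffAt ℝ 2 D.SS s) (w : St V Y) :
    fderiv ℝ D.SS s w = fderiv ℝ D.SS s (w.1, 0, 0, w.2.2.2) := by
  have hd := hS.differentiableAt (n := 2) (by norm_num)
  have h1 : w = (w.1, 0, 0, w.2.2.2) + (0, w.2.1, w.2.2.1, 0) := by simp
  have h2 : fderiv ℝ D.SS s (0, w.2.1, w.2.2.1, 0) = 0 := by
    refine lie_eq_deriv hd ?_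
    refine (hasDerivAt_const (0:ℝ) (D.SS s)).congr_of_eventuallyEq
      (Eventually.of_forall fun t => ?_)
    simp [BD.SS]
  conv_lhs => rw [h1, map_add, h2, add_zero]

/-- the relevant part of the spray -/
noncomputable def WW (D : BD V Y) (s : St V Y) : St V Y :=
  (s.2.1, 0, 0, - D.A s.1 s.2.1 s.2.2.2.1, - D.A s.1 s.2.1 s.2.2.2.2.1,
    - D.A s.1 s.2.1 s.2.2.2.2.2.1, - D.A s.1 s.2.1 s.2.2.2.2.2.2)

lemma lie_SS {s : St V Y} (hS : ContDiffAt ℝ 2 D.SS s) :
    lie D.Xs D.SS s = fderiv ℝ D.SS s (WW D s) := by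
  rw [lie, fderiv_SS_proj hS]
  rfl

lemma A_line {A : V → V →L[ℝ] Y →L[ℝ] Y} {x : V} (hA : DifferentiableAt ℝ A x) (A0 : A x = 0)
    (u w2 : V) (hA1 : fderiv ℝ A x u u = 0) (a : Y) :
    HasDerivAt (fun t : ℝ => - A (x + t • u) (u + t • w2) a) 0 0 := by
  have := (((line hA u).clm_apply (lin u w2)).clm_apply (hasDerivAt_const (0:ℝ) a)).fun_neg
  simpa only [zero_smul, add_zero, _root_.add_apply, A0, hA1, _root_.zero_apply, map_zero,
    neg_zero] using this

/-- the derivative of `WW` along the spray. -/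
lemma WW_line (hA : DifferentiableAt ℝ D.A x) (A0 : D.A x = 0)
    (X w2 U w3 : V) (hA1 : fderiv ℝ D.A x X X = 0) (a b c d : Y) :
    HasDerivAt (fun t : ℝ => WW D ((x, X, U, a, b, c, d) + t • (X, w2, w3, 0, 0, 0, 0)))
      ((w2, 0, 0, 0, 0, 0, 0) : St V Y) 0 := by
  have e : (fun t : ℝ => WW D ((x, X, U, a, b, c, d) + t • (X, w2, w3, 0, 0, 0, 0)))
      = fun t : ℝ => ((X + t • w2, 0, 0, - D.A (x + t • X) (X + t • w2) a,
        - D.A (x + t • X) (X + t • w2) b, - D.A (x + t • X) (X + t • w2) c,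
        - D.A (x + t • X) (X + t • w2) d) : St V Y) := by
    funext t
    simp [WW]
  rw [e]
  have z : HasDerivAt (fun _ : ℝ => (0 : V)) 0 0 := hasDerivAt_const _ _
  exact (lin X w2).prodMk (z.prodMk (z.prodMk ((A_line hA A0 X w2 hA1 a).prodMk
    ((A_line hA A0 X w2 hA1 b).prodMk ((A_line hA A0 X w2 hA1 c).prodMk
      (A_line hA A0 X w2 hA1 d))))))

lemma fd2_line {E Z : Type*} [NormedAddCommGroup E] [NormedSpace ℝ E]
    [NormedAddCommGroup Z] [NormedSpace ℝ Z] {f : E → Z} {s : E}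
    (hf : ContDiffAt ℝ 2 f s) (w : E) {u : ℝ → E} {u' : E} (hu : HasDerivAt u u' 0) :
    HasDerivAt (fun t : ℝ => fderiv ℝ f (s + t • w) (u t))
      (fderiv ℝ (fun x' => fderiv ℝ f x' (u 0)) s w + fderiv ℝ f s u') 0 := by
  have h1 : DifferentiableAt ℝ (fderiv ℝ f) s :=
    (hf.fderiv_right (m := 1) (by norm_num)).differentiableAt (by norm_num)
  have h2 : fderiv ℝ (fun x' => fderiv ℝ f x' (u 0)) s w = fderiv ℝ (fderiv ℝ f) s w (u 0) := by
    have := (h1.hasFDerivAt.clm_apply (hasFDerivAt_const (u 0) s)).fderiv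
    rw [this]; simp
  have := (line h1 w).clm_apply hu
  rw [h2]
  simpa only [zero_smul, add_zero] using this

lemma fd_diff {E Z : Type*} [NormedAddCommGroup E] [NormedSpace ℝ E]
    [NormedAddCommGroup Z] [NormedSpace ℝ Z] {f : E → Z} {s : E}
    (hf : ContDiffAt ℝ 2 f s) {u : E → E} (hu : DifferentiableAt ℝ u s) :
    DifferentiableAt ℝ (fun s => fderiv ℝ f s (u s)) s :=
  ((hf.fderiv_right (m := 1) (by norm_num)).differentiableAt (by norm_num)).clm_apply hu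

lemma WW_diff {s : St V Y} (hA : DifferentiableAt ℝ D.A s.1) : DifferentiableAt ℝ (WW D) s := by
  have h0 : DifferentiableAt ℝ (fun s : St V Y => D.A s.1) s :=
    hA.comp s differentiableAt_fst
  have h1 : DifferentiableAt ℝ (fun s : St V Y => D.A s.1 s.2.1) s := h0.clm_apply (by fun_prop)
  unfold WW
  fun_prop

/-- the second Lie derivative at a state over a point with `A = 0`. -/
lemma fderiv_lieSS (X U : V) (a b c d : Y) (hSS : ContDiffAt ℝ 2 D.SS (x, X, U, a, b, c, d))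
    (hA : DifferentiableAt ℝ D.A x) (A0 : D.A x = 0)
    (A1 : ∀ ζ, fderiv ℝ D.A x ζ ζ = 0) (w2 w3 : V) :
    fderiv ℝ (fun s => fderiv ℝ D.SS s (WW D s)) (x, X, U, a, b, c, d) (X, w2, w3, 0, 0, 0, 0)
      = ddS4 D.S x X X a b c d + dS4 D.S x w2 a b c d := by
  have hdd : DifferentiableAt ℝ (fun s => fderiv ℝ D.SS s (WW D s)) (x, X, U, a, b, c, d) :=
    fd_diff hSS (WW_diff (s := (x, X, U, a, b, c, d)) hA)
  have k := fd2_line hSS (X, w2, w3, 0, 0, 0, 0) (WW_line hA A0 X w2 U w3 (A1 X) a b c d)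
  rw [lie_eq_deriv hdd k, fderiv_SS_base hSS _ rfl rfl rfl rfl]
  have hW : WW D ((x, X, U, a, b, c, d) + (0:ℝ) • (X, w2, w3, 0, 0, 0, 0))
      = ((X, 0, 0, 0, 0, 0, 0) : St V Y) := by
    simp [WW, A0]
  rw [hW]
  have hev : (fun s' : St V Y => fderiv ℝ D.SS s' (X, 0, 0, 0, 0, 0, 0))
      =ᶠ[𝓝 ((x, X, U, a, b, c, d) : St V Y)]
      fun s' => dS4 D.S s'.1 X s'.2.2.2.1 s'.2.2.2.2.1 s'.2.2.2.2.2.1 s'.2.2.2.2.2.2 := by
    filter_upwards [hSS.eventually (by simp)] with s' hs'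
    exact fderiv_SS_base hs' _ rfl rfl rfl rfl
  have hd3 : DifferentiableAt ℝ (fun s' : St V Y => fderiv ℝ D.SS s' (X, 0, 0, 0, 0, 0, 0))
    (x, X, U, a, b, c, d) := fd_diff hSS (differentiableAt_const _)
  have hd4 := hev.differentiableAt_iff.1 hd3
  have hd5 : DifferentiableAt ℝ (fun x' => dS4 D.S x' X a b c d) x :=
    fd_diff (contDiffAt_S4 hSS) (differentiableAt_const X)
  rw [hev.fderiv_eq (𝕜 := ℝ)]
  congr 1
  refine lie_eq_deriv hd4 ?_
  refine (line hd5 X).congr_of_eventuallyEq (Eventually.of_forall fun t => ?_)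
  simp

/-- `OmV` as a continuous bilinear map -/
noncomputable def OmL (A : V → V →L[ℝ] Y →L[ℝ] Y) (x : V) : V →L[ℝ] V →L[ℝ] Y →L[ℝ] Y :=
  fderiv ℝ A x - (fderiv ℝ A x).flip
    + (ContinuousLinearMap.compL ℝ Y Y Y).bilinearComp (A x) (A x)
    - ((ContinuousLinearMap.compL ℝ Y Y Y).bilinearComp (A x) (A x)).flip

lemma OmL_apply (A : V → V →L[ℝ] Y →L[ℝ] Y) (x ζ ζ' : V) : OmL A x ζ ζ' = OmV A x ζ ζ' := by
  simp [OmL, OmV]

/-- `OmL` is `C¹`. -/
lemma OmL_diff [FiniteDimensional ℝ V] {A : V → V →L[ℝ] Y →L[ℝ] Y} {x : V}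
    (hA : ContDiffAt ℝ 2 A x) : DifferentiableAt ℝ (OmL A) x := by
  refine ContDiffAt.differentiableAt (n := 1) ?_ (by norm_num)
  refine Helper76.HP.contDiffAt_of_apply (fun u => Helper76.HP.contDiffAt_of_apply (fun v => ?_))
  simp only [OmL_apply]
  unfold OmV
  have h1 : ContDiffAt ℝ 1 (fderiv ℝ A) x := hA.fderiv_right (m := 1) (by norm_num)
  have h0 : ContDiffAt ℝ 1 A x := hA.of_le (by norm_num)
  have hu : ContDiffAt ℝ 1 (fun x' => A x' u) x := h0.clm_apply contDiffAt_const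
  have hv : ContDiffAt ℝ 1 (fun x' => A x' v) x := h0.clm_apply contDiffAt_const
  exact ((((h1.clm_apply contDiffAt_const).clm_apply contDiffAt_const).sub
    ((h1.clm_apply contDiffAt_const).clm_apply contDiffAt_const)).add (hu.clm_comp hv)).sub
    (hv.clm_comp hu)

lemma fderiv_OmS [FiniteDimensional ℝ V] (hA : ContDiffAt ℝ 2 D.A x) (A0 : D.A x = 0)
    (hk : DifferentiableAt ℝ D.k x) (k1 : fderiv ℝ D.k x = 0) (h : V → V →L[ℝ] V →L[ℝ] ℝ)
    (X U : V) (a b c d : Y) :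
    fderiv ℝ D.OmS (x, X, U, a, b, c, d) (X, -Gam h x X X, -Gam h x X U, 0, 0, 0, 0)
      = D.k x a (DOmV h D.A x X X U b) := by
  have hO : DifferentiableAt ℝ (OmL D.A) x := OmL_diff hA
  have hv : fderiv ℝ (fun x' => OmL D.A x' X U) x X = fderiv ℝ (OmL D.A) x X X U := by
    have h1 := hO.hasFDerivAt.clm_apply (hasFDerivAt_const X x)
    have h2 := h1.clm_apply (hasFDerivAt_const U x)
    rw [h2.fderiv]; simp
  have eS : D.OmS = fun s : St V Y => D.k s.1 s.2.2.2.1 (OmL D.A s.1 s.2.1 s.2.2.1 s.2.2.2.2.1) := by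
    ext1 s; rw [OmL_apply]; rfl
  rw [eS]
  have hd : DifferentiableAt ℝ
      (fun s : St V Y => D.k s.1 s.2.2.2.1 (OmL D.A s.1 s.2.1 s.2.2.1 s.2.2.2.2.1))
      (x, X, U, a, b, c, d) := by
    have a1 : DifferentiableAt ℝ (fun s : St V Y => D.k s.1) (x, X, U, a, b, c, d) :=
      dfst hk
    have a2 : DifferentiableAt ℝ (fun s : St V Y => OmL D.A s.1) (x, X, U, a, b, c, d) :=
      dfst hO
    exact (a1.clm_apply (by fun_prop)).clm_apply
      (((a2.clm_apply (by fun_prop)).clm_apply (by fun_prop)).clm_apply (by fun_prop))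
  have z : ∀ e : Y, HasDerivAt (fun t : ℝ => e + t • (0:Y)) 0 0 := fun e => lin e 0
  have e := lie_eq_deriv (w := (X, -Gam h x X X, -Gam h x X U, 0, 0, 0, 0)) hd
    (((line hk X).clm_apply (z a)).clm_apply
      ((((line hO X).clm_apply (lin X (-Gam h x X X))).clm_apply (lin U (-Gam h x X U))).clm_apply
        (z b)))
  rw [e]
  simp only [zero_smul, smul_zero, add_zero, A0, _root_.zero_apply, map_zero,
    _root_.add_apply, k1, zero_add, DOmV, ContinuousLinearMap.zero_comp,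
    ContinuousLinearMap.comp_zero, sub_zero, map_neg, _root_.neg_apply, _root_.sub_apply,
    ← OmL_apply, map_add, map_sub, hv]
  ring

set_option linter.unusedVariables false in
theorem lie_NG [FiniteDimensional ℝ V] [FiniteDimensional ℝ Y]
    (H : D.Good x) (N : NG D.h D.k D.S D.A x) (X U : V) (a b c d : Y) :
    lie D.Xs D.OmS (x, X, U, a, b, c, d) = D.k x a (DOmV D.h D.A x X X U b) ∧
    lie D.Xs D.SS (x, X, U, a, b, c, d) = dS4 D.S x X a b c d ∧
    lie D.Xs (lie D.Xs D.SS) (x, X, U, a, b, c, d) = hS4 D.h D.S x X X a b c d := by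
  have hX : D.Xs (x, X, U, a, b, c, d) = (X, -Gam D.h x X X, -Gam D.h x X U, 0, 0, 0, 0) := by
    simp [BD.Xs, N.A0]
  have hSS : ContDiffAt ℝ 2 D.SS (x, X, U, a, b, c, d) := contDiffAt_SS (s := (x, X, U, a, b, c, d)) N.hS
  have hA1 : DifferentiableAt ℝ D.A x := N.hA.differentiableAt (by norm_num)
  refine ⟨?_, ?_, ?_⟩
  · rw [lie, hX]
    exact fderiv_OmS N.hA N.A0 (N.hm.smooth.differentiableAt (by norm_num)) N.m1 D.h X U a b c d
  · rw [lie, hX]
    exact fderiv_SS_base hSS _ rfl rfl rfl rfl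
  · have hev : lie D.Xs D.SS =ᶠ[𝓝 ((x, X, U, a, b, c, d) : St V Y)]
        fun s => fderiv ℝ D.SS s (WW D s) := by
      filter_upwards [hSS.eventually (by simp)] with s hs
      exact lie_SS hs
    rw [lie, hX, hev.fderiv_eq (𝕜 := ℝ), fderiv_lieSS X U a b c d hSS hA1 N.A0 N.A1, hS4]
    simp only [dS4, map_neg]
    ring

end

end Pool.Agent.Helper78.MB
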